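import Pool.Graph.R_pool_sql_team_22c7b01f.H17.Dm4

set_option autoImplicit false
open Set Topology Filter TopologicalSpace

namespace Pool.Agent.KS7_39.D50
open Pool.Agent.H17.Dm Pool.Agent.H17

/-- `dual` relative to a subset of `T`. -/
theorem dualA {n : ℕ} {S T I J : Type} [TopologicalSpace S] [TopologicalSpace T] [T2Space T]
    [PseudoMetrizableSpace S] [PseudoMetrizableSpace T] {v : I → S → ℝ} {g : I} {Φ : I → T → ℝ}
    {w : J → T → ℝ} {g' : J} {Ψ : J → S → ℝ} {A0 : Set T} (hD : D n S)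
    (h1 : Sig (Good v g Φ 2) univ)
    (h2 : ∀ ε, 0 < ε → Sig (Good w g' Ψ ε) univ)
    (link : ∀ t ∈ A0, ∀ (B : Set T), B.Finite → t ∉ B → ∃ f h, 2 ≤ Φ f t ∧
      (∀ y ∈ B, w h y = w g' y) ∧ ∀ s, |v f s - v g s| ≤ Ψ h s) :
    Sig (fun C : Set T => D n C) A0 := by
  obtain ⟨𝒞, c1, c2, c3⟩ := h1
  have := c1.to_subtype
  refine (Sig.iUnion (A := fun C : 𝒞 => C.1 ∩ A0) fun C => ?_).mono fun t ht => ?_
  · obtain ⟨hC, m, ε, r, p, hε, hr, hp, hc⟩ := c2 C.1 C.2
    obtain ⟨𝒟, d1, d2, d3⟩ := h2 ε hε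
    have := d1.to_subtype
    choose m' δ r' q hδ hr' hq hc' using fun E : 𝒟 => (d2 E.1 E.2).2
    refine (Sig.iUnion (ι := Fin m × Σ E : 𝒟, Fin (m' E)) (A := fun a =>
      {t ∈ C.1 ∩ (fun t => p t a.1) ⁻¹' a.2.1.1 | q a.2.1 (p t a.1) a.2.2 = t})
      fun a => ?_).mono fun t ht => ?_
    · obtain ⟨i, E, j⟩ := a
      have hp1 : ContinuousOn (fun t => p t i) C.1 := continuousOn_pi.1 hp i
      have hq1 : ContinuousOn (fun s => q E s j) E.1 := continuousOn_pi.1 (hq E) j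
      refine Sig.single ((hp1.preimage_isClosed_of_isClosed hC (d2 E.1 E.2).1).isClosed_eq
        (hq1.comp (hp1.mono inter_subset_left) fun t ht => ht.2) continuousOn_id) ?_
      let A : Set T := {t ∈ C.1 ∩ (fun t => p t i) ⁻¹' E.1 | q E (p t i) j = t}
      have k1 : Continuous fun t : A => (⟨p t.1 i, t.2.1.2⟩ : E.1) :=
        (hp1.comp_continuous continuous_subtype_val fun t : A => t.2.1.1).subtype_mk _
      have k2 : IsInducing fun t : A => (⟨p t.1 i, t.2.1.2⟩ : E.1) := by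
        refine IsInducing.of_comp k1 hq1.domRestrict ?_
        convert IsInducing.subtypeVal (t := A) using 1
        funext t
        exact t.2.2
      exact hD.ind (IsInducing.subtypeVal.comp k2)
    · choose E hE hpE using fun i => d3 (p t i) (mem_univ _)
      by_contra hn
      obtain ⟨f, h, l1, l2, l3⟩ := link t ht.2 (⋃ i, range (q ⟨E i, hE i⟩ (p t i)))
        (finite_iUnion fun i => finite_range _) (fun hh => by
          obtain ⟨i, j, hj⟩ := mem_iUnion.1 hh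
          exact hn (mem_iUnion.2 ⟨(i, ⟨⟨E i, hE i⟩, j⟩), ⟨ht.1, hpE i⟩, hj⟩))
      have := hc t ht.1 f fun i => (l3 _).trans_lt ((hc' ⟨E i, hE i⟩ _ (hpE i) h fun j => by
        rw [l2 _ (mem_iUnion.2 ⟨i, j, rfl⟩)]; simpa using hδ _).trans_lt (hr' _))
      linarith
  · obtain ⟨C, hC, ht'⟩ := c3 t (mem_univ t)
    exact mem_iUnion.2 ⟨⟨C, hC⟩, ht', ht⟩

variable {X Y : Type} [TopologicalSpace X] [TopologicalSpace Y] {n : ℕ}

/-- For each point `y`, the functional `f ↦ φ f y` is uniformly continuous, for the uniformity of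
pointwise convergence, on every pointwise bounded set of continuous functions. -/
def UCB (φ : C(X, ℝ) → C(Y, ℝ)) : Prop :=
  ∀ (b : X → ℝ) (y : Y) (η : ℝ), 0 < η → ∃ (F : Finset X) (δ : ℝ), 0 < δ ∧
    ∀ f f' : C(X, ℝ), (∀ x, |f x| ≤ b x) → (∀ x, |f' x| ≤ b x) →
      (∀ x ∈ F, |f x - f' x| < δ) → |φ f y - φ f' y| < η

theorem side3 {φ : C(X, ℝ) → C(Y, ℝ)} (hφ : UCB φ) {e : ℕ → C(X, ℝ)} {e' : ℕ → C(Y, ℝ)}
    {ρ : ℕ → ℕ} (he : ∀ j, e' (ρ j) = φ (e j)) {g : ℕ} (h : Alg (fun j => (e j : X → ℝ)) g)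
    {b : X → ℝ} (hb : ∀ x, |e g x - e g x| ≤ b x) {R : ℝ} (hR : 0 < R) :
    Sig (Good (fun j : {j // ∀ x, |e j x - e g x| ≤ b x} => vl (fun j => (e j : X → ℝ)) j.1)
      ⟨g, hb⟩ (fun j t => |vl (fun j => (e' j : Y → ℝ)) (ρ j.1) t -
        vl (fun j => (e' j : Y → ℝ)) (ρ g) t|) R) univ := by
  refine side (ι := inclusion (subset_closure (s := range (io fun j => (e j : X → ℝ)))))
    (IsEmbedding.inclusion _).isInducing (fun j => by exact vl_cont _ j.1) ?_
    (fun j => by exact ((vl_cont _ (ρ j.1)).sub (vl_cont _ (ρ g))).abs) ?_ (fun t => by simp) hR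
  · intro m y c hc f
    obtain ⟨M, ⟨-, m1, a, ha⟩, m2, m3⟩ := sep h (B := range fun i => (y i).1) (B' := {c.1})
      (finite_range _).isCompact isCompact_singleton (by
        rintro _ ⟨i, rfl⟩ hi
        exact hc ⟨i, Subtype.ext hi⟩)
    obtain ⟨l, hl⟩ := h a f.1 (Or.inl (Or.inr (Or.inr rfl)))
    beta_reduce at hl ha
    have hl' : ∀ x, e l x = e g x + e a x * (e f.1 x - e g x) := fun x => congrFun hl x
    have k0 : ∀ x, |e l x - e g x| ≤ |e f.1 x - e g x| := fun x => by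
      rw [hl']
      simp only [add_sub_cancel_left, abs_mul, ha, abs_of_nonneg (m1 _).1]
      exact mul_le_of_le_one_left (abs_nonneg _) (m1 _).2
    refine ⟨⟨l, fun x => (k0 x).trans (f.2 x)⟩, fun i => ?_, ?_, fun s => ?_⟩
    · filter_upwards [continuous_subtype_val.continuousAt.tendsto.eventually
        (m2 _ (mem_range_self i))] with z hz s hs
      obtain ⟨x, hx⟩ := s.2
      have : M (io (fun j => (e j : X → ℝ)) x) = 1 := by rw [hx, ← hz, ← hs]
      simp only [vl_io _ _ hx, hl', ha, this]; ring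
    · filter_upwards [continuous_subtype_val.continuousAt.tendsto.eventually
        (m3 _ rfl)] with z hz s hs
      obtain ⟨x, hx⟩ := s.2
      have : M (io (fun j => (e j : X → ℝ)) x) = 0 := by rw [hx, ← hz, ← hs]
      simp only [vl_io _ _ hx, hl', ha, this]; ring
    · obtain ⟨x, hx⟩ := s.2
      simp only [vl_io _ _ hx]; exact k0 x
  · intro t η hη
    obtain ⟨y0, hy0⟩ := t.2
    obtain ⟨F, δ, hδ, hy⟩ := hφ (fun x => |e g x| + b x) y0 η hη
    have hbd : ∀ f : {j // ∀ x, |e j x - e g x| ≤ b x}, ∀ x, |e f.1 x| ≤ |e g x| + b x := by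
      intro f x
      have h1 := f.2 x
      have h2 : |e f.1 x| ≤ |e g x| + |e f.1 x - e g x| := by
        have := abs_add_le (e g x) (e f.1 x - e g x)
        rwa [add_sub_cancel] at this
      linarith
    refine ⟨F.card, δ, fun i => ⟨io (fun j => (e j : X → ℝ)) ((F.equivFin.symm i).1),
      mem_range_self _⟩, hδ, fun f f' hf => ?_⟩
    have := hy (e f.1) (e f'.1) (hbd f) (hbd f') fun x hx => by
      have := hf (F.equivFin ⟨x, hx⟩)
      beta_reduce at this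
      rw [vl_io (x := ((F.equivFin.symm (F.equivFin ⟨x, hx⟩)).1)) _ _ rfl,
        vl_io (x := ((F.equivFin.symm (F.equivFin ⟨x, hx⟩)).1)) _ _ rfl] at this
      rw [abs_sub_comm]
      simpa using this
    simp only [vl_io _ _ hy0, he]
    linarith [abs_sub_le (φ (e f.1) y0) (φ (e f'.1) y0) (φ (e g) y0)]

/-- Pointwise boundedness of the image of a pointwise bounded set. -/
theorem UCB.bdd {ψ : C(Y, ℝ) → C(X, ℝ)} (hψ : UCB ψ) (c : ℝ) (x : X) :
    ∃ K : ℝ, ∀ f : C(Y, ℝ), (∀ y, |f y| ≤ c) → |ψ f x| ≤ K := by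
  classical
  obtain ⟨F, δ, hδ, h⟩ := hψ (fun _ => c) x 1 one_pos
  have htb : TotallyBounded ((fun (f : C(Y, ℝ)) (y : F) => f y) '' {f | ∀ y, |f y| ≤ c}) := by
    refine ((isCompact_univ_pi fun _ : F => isCompact_closedBall (0 : ℝ) c).totallyBounded).subset ?_
    rintro _ ⟨f, hf, rfl⟩ y -
    simpa using hf y.1
  obtain ⟨t, hts, htf, ht⟩ := Metric.finite_approx_of_totallyBounded htb δ hδ
  have hts' : ∀ p ∈ t, ∃ f : C(Y, ℝ), (∀ y, |f y| ≤ c) ∧ (fun y : F => f y) = p :=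
    fun p hp => hts hp
  choose! r hr1 hr2 using hts'
  obtain ⟨K, hK⟩ := (htf.image fun p => |ψ (r p) x|).bddAbove
  refine ⟨K + 1, fun f hf => ?_⟩
  obtain ⟨p, hp, hfp⟩ := mem_iUnion₂.1 (ht (mem_image_of_mem _ hf))
  have h1 := h f (r p) hf (hr1 p hp) fun y hy => by
    have h2 : dist (f y) (p ⟨y, hy⟩) < δ :=
      (dist_le_pi_dist (fun y : F => f y) p ⟨y, hy⟩).trans_lt hfp
    have h3 : p ⟨y, hy⟩ = r p y := (congrFun (hr2 p hp) ⟨y, hy⟩).symm
    rwa [h3, Real.dist_eq] at h2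
  have h4 : |ψ (r p) x| ≤ K := hK (mem_image_of_mem _ hp)
  have h5 : |ψ f x| ≤ |ψ f x - ψ (r p) x| + |ψ (r p) x| := by
    have := abs_add_le (ψ f x - ψ (r p) x) (ψ (r p) x)
    rwa [sub_add_cancel] at this
  linarith

theorem dimY3 {φ : C(X, ℝ) → C(Y, ℝ)} {ψ : C(Y, ℝ) → C(X, ℝ)} (hφ : UCB φ) (hψ : UCB ψ)
    (hc : ∀ y, ∃ C : ℝ, ∀ f, |φ (ψ f) y - f y| ≤ C)
    {e : ℕ → C(X, ℝ)} {e' : ℕ → C(Y, ℝ)} {ρ σ : ℕ → ℕ} (hρ : ∀ j, e' (ρ j) = φ (e j))
    (hσ : ∀ j, e (σ j) = ψ (e' j)) {g g' : ℕ} (aX : Alg (fun j => (e j : X → ℝ)) g)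
    (aY : Alg (fun j => (e' j : Y → ℝ)) g') (hg : e g = ψ 0) (hg' : e' g' = 0)
    {c : ℕ → ℕ} (hcN : ∀ N : ℕ, ∀ y, e' (c N) y = 2 * N + 2)
    (dK : D n (closure (range (io fun j => (e j : X → ℝ))))) :
    D n (range (io fun j => (e' j : Y → ℝ))) := by
  have key : ∀ N : ℕ, Sig (fun C : Set (range (io fun j => (e' j : Y → ℝ))) => D n C)
      {t | ∀ l, |vl (fun j => (e' j : Y → ℝ)) (ρ (σ l)) t -
        vl (fun j => (e' j : Y → ℝ)) l t| ≤ N} := by
    intro N
    choose K hK using fun x => hψ.bdd (2 * N + 2) x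
    have hN : (0 : ℝ) ≤ 2 * N + 2 := by positivity
    have hK0 : ∀ x, 0 ≤ K x := fun x => (abs_nonneg _).trans (hK x 0 fun y => by simpa using hN)
    have hb' : ∀ j, (∀ y, |e' j y - e' g' y| ≤ 2 * N + 2) →
        ∀ x, |e (σ j) x - e g x| ≤ K x + |e g x| := fun j hj x => by
      have h1 := hK x (e' j) fun y => by simpa [hg'] using hj y
      rw [← hσ] at h1
      exact (abs_sub _ _).trans (by linarith)
    have s1 := side3 hφ hρ aX (b := fun x => K x + |e g x|)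
      (fun x => by simpa using add_nonneg (hK0 x) (abs_nonneg (e g x))) two_pos
    have s2 := fun ε hε => side3 hψ hσ aY (b := fun _ => 2 * N + 2) (fun y => by simpa using hN)
      (R := ε) hε
    refine dualA (dK.ind (IsEmbedding.inclusion
      (subset_closure (s := range (io fun j => (e j : X → ℝ))))).isInducing) s1 s2
      fun t htA B hB ht => ?_
    obtain ⟨M, ⟨-, m1, a, ha⟩, m2, m3⟩ := sep aY (B := {t.1}) (B' := Subtype.val '' B)
      isCompact_singleton (hB.image _).isCompact (by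
        rintro _ rfl ⟨y, hy, he⟩
        exact ht (Subtype.ext he ▸ hy))
    obtain ⟨l, hl⟩ := aY a (c N) (Or.inl (Or.inr (Or.inr rfl)))
    have hl' : ∀ y, e' l y = M (io (fun j => (e' j : Y → ℝ)) y) * (2 * N + 2) := fun y => by
      have h1 := congrFun hl y
      beta_reduce at h1 ha
      rw [h1, ← ha, hg', hcN]; simp
    have hl2 : ∀ y, |e' l y - e' g' y| ≤ 2 * N + 2 := fun y => by
      have h1 := m1 (io (fun j => (e' j : Y → ℝ)) y)
      rw [hl', hg', ContinuousMap.zero_apply, sub_zero, abs_mul, abs_of_nonneg h1.1,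
        abs_of_nonneg hN]
      exact mul_le_of_le_one_left hN h1.2
    have hbase : e' (ρ (σ g')) = e' (ρ g) := by rw [hρ, hρ, hσ, hg', hg]
    have hbase2 : e (σ g') = e g := by rw [hσ, hg', hg]
    refine ⟨⟨σ l, hb' l hl2⟩, ⟨l, hl2⟩, ?_, fun y hy => ?_, fun s => ?_⟩
    · obtain ⟨y, hy⟩ := t.2
      have k1 := htA l
      have k2 := htA g'
      have k3 : vl (fun j => (e' j : Y → ℝ)) l t = 2 * N + 2 := by
        rw [vl_io _ _ hy, hl', hy, (m2 _ rfl).self_of_nhds, one_mul]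
      have k4 : vl (fun j => (e' j : Y → ℝ)) g' t = 0 := by
        rw [vl_io _ _ hy, hg']; rfl
      have k5 : vl (fun j => (e' j : Y → ℝ)) (ρ (σ g')) t =
          vl (fun j => (e' j : Y → ℝ)) (ρ g) t := by
        rw [vl_io _ _ hy, vl_io _ _ hy, hbase]
      rw [k3] at k1
      rw [k4, k5, sub_zero] at k2
      have k6 := (abs_le.1 k1).1
      have k7 := (abs_le.1 k2).2
      exact le_trans (by linarith) (le_abs_self _)
    · obtain ⟨y', hy'⟩ := y.2
      simp only [vl_io _ _ hy', hl', hg', hy', (m3 _ ⟨y, hy, rfl⟩).self_of_nhds]; simp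
    · obtain ⟨x, hx⟩ := s.2
      simp only [vl_io _ _ hx, hbase2]; exact le_rfl
  obtain ⟨𝒞, c1, c2, c3⟩ := (Sig.iUnion key).mono (A := univ) fun t _ => by
    obtain ⟨y, hy⟩ := t.2
    obtain ⟨C, hC⟩ := hc y
    obtain ⟨N, hN⟩ := exists_nat_ge C
    refine mem_iUnion.2 ⟨N, fun l => ?_⟩
    rw [vl_io _ _ hy, vl_io _ _ hy, hρ, hσ]
    exact (hC _).trans hN
  exact cst c1 c2 fun t => c3 t (mem_univ t)

open Classical in
/-- A function made continuous (zero if it was not). -/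
noncomputable def lft (f : X → ℝ) : C(X, ℝ) := if h : Continuous f then ⟨f, h⟩ else 0

theorem lft_eq {f : X → ℝ} (h : Continuous f) : (lft f : X → ℝ) = f := by
  unfold lft; rw [dif_pos h]; rfl

theorem main3 {φ : C(X, ℝ) → C(Y, ℝ)} {ψ : C(Y, ℝ) → C(X, ℝ)} (hφ : UCB φ) (hψ : UCB ψ)
    (hc : ∀ y, ∃ C : ℝ, ∀ f, |φ (ψ f) y - f y| ≤ C) (hX : CD n X) : CD n Y := by
  classical
  intro k U hU hcov
  choose u hu using hU
  choose wm wb wc ww using fun k (a : Fin k → X → ℝ) => ex_wit hX a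
  let pX : C(X, ℝ) ⊕ C(Y, ℝ) → C(X, ℝ) := Sum.elim id fun _ => ψ 0
  let pY : C(X, ℝ) ⊕ C(Y, ℝ) → C(Y, ℝ) := Sum.elim (fun _ => 0) id
  obtain ⟨S, hSc, hS⟩ := TE.closeoff (Γ := C(X, ℝ) ⊕ C(Y, ℝ)) (fun R =>
    (({Sum.inl (ψ 0), Sum.inr 0} ∪ range fun N : ℕ => Sum.inr (lft fun _ => 2 * (N : ℝ) + 2)) ∪
      range fun i => Sum.inr (u i)) ∪
    (⋃ a ∈ R, ⋃ b ∈ R, ((fun f => Sum.inl (lft f)) '' Ops (ψ 0 : X → ℝ) (pX a) (pX b) ∪
      (fun f => Sum.inr (lft f)) '' Ops (0 : Y → ℝ) (pY a) (pY b)) ∪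
      {Sum.inr (φ (pX a)), Sum.inl (ψ (pY a))}) ∪
    ⋃ k, ⋃ a : Fin k → R, range fun j => Sum.inl (lft (wb k (fun i => (pX (a i).1 : X → ℝ)) j)))
    fun R => ((((toFinite _).countable.union (countable_range _)).union (countable_range _)).union
        (R.countable_toSet.biUnion fun a _ => R.countable_toSet.biUnion fun b _ =>
          (((ops_count _ _ _).image _).union ((ops_count _ _ _).image _)).union
            (toFinite _).countable)).union
        (countable_iUnion fun k => countable_iUnion fun a => countable_range _)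
  have b0 := hS ∅ (by simp)
  have gX : Sum.inl (ψ 0) ∈ S := b0 (Or.inl (Or.inl (Or.inl (Or.inl (Or.inl rfl)))))
  have gY : Sum.inr 0 ∈ S := b0 (Or.inl (Or.inl (Or.inl (Or.inl (Or.inr rfl)))))
  obtain ⟨e, he⟩ := (hSc.preimage (f := (Sum.inl : C(X, ℝ) → C(X, ℝ) ⊕ C(Y, ℝ)))
    Sum.inl_injective).exists_eq_range ⟨_, gX⟩
  obtain ⟨e', he'⟩ := (hSc.preimage (f := (Sum.inr : C(Y, ℝ) → C(X, ℝ) ⊕ C(Y, ℝ)))
    Sum.inr_injective).exists_eq_range ⟨_, gY⟩
  have hin : ∀ j, Sum.inl (e j) ∈ S := fun j => by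
    have : e j ∈ Sum.inl ⁻¹' S := he ▸ mem_range_self j
    exact this
  have hin' : ∀ j, Sum.inr (e' j) ∈ S := fun j => by
    have : e' j ∈ Sum.inr ⁻¹' S := he' ▸ mem_range_self j
    exact this
  have hout : ∀ f, Sum.inl f ∈ S → ∃ j, e j = f := fun f a => by
    have : f ∈ range e := by rw [← he]; exact a
    exact this
  have hout' : ∀ f, Sum.inr f ∈ S → ∃ j, e' j = f := fun f a => by
    have : f ∈ range e' := by rw [← he']; exact a
    exact this
  obtain ⟨g, hg⟩ := hout _ gX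
  obtain ⟨g', hg'⟩ := hout' _ gY
  choose c hcN using fun N : ℕ => hout' _ (b0 (Or.inl (Or.inl (Or.inl (Or.inr ⟨N, rfl⟩)))))
  choose ju hju using fun i => hout' _ (b0 (Or.inl (Or.inl (Or.inr ⟨i, rfl⟩))))
  have hop : ∀ a ∈ S, ∀ b ∈ S, ((fun f => Sum.inl (lft f)) '' Ops (ψ 0 : X → ℝ) (pX a) (pX b) ∪
      (fun f => Sum.inr (lft f)) '' Ops (0 : Y → ℝ) (pY a) (pY b)) ∪
      {Sum.inr (φ (pX a)), Sum.inl (ψ (pY a))} ⊆ S :=
    fun a ha b hb f hf => hS {a, b} (by
      rw [Finset.coe_pair]; exact pair_subset ha hb)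
      (Or.inl (Or.inr (mem_iUnion₂.2 ⟨a, by simp, mem_iUnion₂.2 ⟨b, by simp, hf⟩⟩)))
  have aX : Alg (fun j => (e j : X → ℝ)) g := fun j k f hf => by
    beta_reduce at hf
    have hfc : Continuous f := ops_cont (e g).continuous (e j).continuous (e k).continuous hf
    rw [hg] at hf
    obtain ⟨l, hl⟩ := hout _ (hop _ (hin j) _ (hin k) (Or.inl (Or.inl ⟨f, hf, rfl⟩)))
    exact ⟨l, by beta_reduce; rw [hl, lft_eq hfc]⟩
  have aY : Alg (fun j => (e' j : Y → ℝ)) g' := fun j k f hf => by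
    beta_reduce at hf
    have hfc : Continuous f := ops_cont (e' g').continuous (e' j).continuous (e' k).continuous hf
    rw [hg'] at hf
    obtain ⟨l, hl⟩ := hout' _ (hop _ (hin' j) _ (hin' k) (Or.inl (Or.inr ⟨f, hf, rfl⟩)))
    exact ⟨l, by beta_reduce; rw [hl, lft_eq hfc]⟩
  choose ρ hρ using fun j => hout' _ (hop _ (hin j) _ (hin j) (Or.inr (Or.inl rfl)))
  choose σ hσ using fun j => hout _ (hop _ (hin' j) _ (hin' j) (Or.inr (Or.inr rfl)))
  have dK := dimK (n := n) aX fun k a ha => by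
    choose b hb using fun j => hout _ (hS (Finset.univ.image fun i => Sum.inl (e (a i))) (by
        intro f hf
        obtain ⟨i, -, rfl⟩ := Finset.mem_image.1 hf
        exact hin _) (Or.inr (mem_iUnion₂.2 ⟨k, fun i => ⟨Sum.inl (e (a i)), by simp⟩, j, rfl⟩)))
    refine ⟨_, b, ?_⟩
    have hb2 : (fun j => (e (b j) : X → ℝ)) = wb k (fun i => (e (a i) : X → ℝ)) := by
      funext j
      rw [hb]
      exact lft_eq (wc k _ j)
    rw [hb2]
    exact ww k _ (fun i => (e (a i)).continuous) ha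
  exact fin (fun j => (e' j).continuous) (dimY3 hφ hψ hc hρ hσ aX aY hg hg' (c := c)
    (fun N y => by rw [hcN, lft_eq continuous_const]) dK) ju (fun i => by simp [hu, hju]) hcov

/-- A map `ℝ^X → ℝ^Y` continuous on compact sets which maps continuous functions to continuous
functions restricts to a map `C(X) → C(Y)` uniformly continuous on pointwise bounded sets. -/
theorem ucb_of_kcont {φ : (X → ℝ) → Y → ℝ} (hφ : ∀ Q : Set (X → ℝ), IsCompact Q → ContinuousOn φ Q)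
    (h1 : ∀ f, Continuous f → Continuous (φ f)) :
    UCB (fun f : C(X, ℝ) => (⟨φ f, h1 f f.continuous⟩ : C(Y, ℝ))) := by
  classical
  intro b y η hη
  have hQ : IsCompact (univ.pi fun x => Metric.closedBall (0 : ℝ) (b x)) :=
    isCompact_univ_pi fun x => isCompact_closedBall _ _
  have h := hQ.uniformContinuousOn_of_continuous ((continuous_apply y).comp_continuousOn (hφ _ hQ))
    (Metric.dist_mem_uniformity hη)
  rw [mem_map, mem_inf_principal, uniformity_eq_comap_nhds_zero, mem_comap] at h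
  obtain ⟨W, hW, hs⟩ := h
  obtain ⟨V, hVW, hV, h0⟩ := mem_nhds_iff.1 hW
  obtain ⟨I, u, hu, hI⟩ := isOpen_pi_iff.1 hV 0 h0
  have : ∀ᶠ k : ℕ in atTop, ∀ a ∈ I, Metric.ball (0 : ℝ) (1 / (k + 1)) ⊆ u a := by
    refine (Filter.eventually_all_finset I).2 fun a ha => ?_
    obtain ⟨δ, hδ, hb⟩ := Metric.isOpen_iff.1 (hu a ha).1 _ (hu a ha).2
    filter_upwards [(tendsto_one_div_add_atTop_nhds_zero_nat (𝕜 := ℝ)).eventually
      (gt_mem_nhds hδ)] with k hk
    exact (Metric.ball_subset_ball hk.le).trans hb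
  obtain ⟨k, hk⟩ := this.exists
  refine ⟨I, 1 / (k + 1), by positivity, fun f f' hf hf' h => ?_⟩
  have := @hs ((f : X → ℝ), (f' : X → ℝ)) (hVW (hI fun a ha => hk a ha (by
    have := h a ha
    rw [abs_sub_comm] at this
    simpa [Real.dist_eq] using this))) ⟨fun x _ => by simpa using hf x,
      fun x _ => by simpa using hf' x⟩
  simpa [Real.dist_eq] using this

theorem main4 {φ : (X → ℝ) → Y → ℝ} {ψ : (Y → ℝ) → X → ℝ}
    (hφ : ∀ Q : Set (X → ℝ), IsCompact Q → ContinuousOn φ Q)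
    (hψ : ∀ Q : Set (Y → ℝ), IsCompact Q → ContinuousOn ψ Q)
    (h1 : ∀ f, Continuous f → Continuous (φ f)) (h2 : ∀ f, Continuous f → Continuous (ψ f))
    (hc : ∀ y, ∃ C : ℝ, ∀ f, Continuous f → |φ (ψ f) y - f y| ≤ C) (hX : CD n X) : CD n Y :=
  main3 (ucb_of_kcont hφ h1) (ucb_of_kcont hψ h2)
    (fun y => (hc y).imp fun _ hC f => hC f f.continuous) hX

end Pool.Agent.KS7_39.D50
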